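import Mathlib

/-!
Products of the matrices `diag(2, 1/2)` and of the rotation by a right angle.
-/

open Matrix
open scoped Matrix.Norms.L2Operator

namespace LyapunovJump

/-- Two by two complex matrices, with the operator norm. -/
abbrev Mat := Matrix (Fin 2) (Fin 2) ℂ

/-- `diag(2^m, 2^(-m))`. -/
noncomputable def dg (m : ℤ) : Mat := Matrix.diagonal ![(2 : ℂ) ^ m, (2 : ℂ) ^ (-m)]

/-- The rotation by a right angle. -/
def rot : Mat := !![0, -1; 1, 0]

theorem dg_zero : dg 0 = 1 := by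
  unfold dg
  ext i j
  fin_cases i <;> fin_cases j <;> simp

theorem dg_mul (m l : ℤ) : dg m * dg l = dg (m + l) := by
  unfold dg
  rw [Matrix.diagonal_mul_diagonal]
  congr 1
  ext i
  fin_cases i
  · simp [zpow_add₀]
  · simp only [Fin.mk_one, cons_val_one, cons_val_fin_one]
    rw [← zpow_add₀ (by norm_num : (2 : ℂ) ≠ 0)]
    congr 1
    ring

theorem rot_mem : rot ∈ unitary Mat := by
  rw [Unitary.mem_iff]
  constructor
  · ext i j
    fin_cases i <;> fin_cases j <;> simp [rot, Matrix.mul_apply, Matrix.star_eq_conjTranspose]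
  · ext i j
    fin_cases i <;> fin_cases j <;> simp [rot, Matrix.mul_apply, Matrix.star_eq_conjTranspose]

theorem dg_mul_rot (m : ℤ) : dg m * rot = rot * dg (-m) := by
  unfold dg rot
  ext i j
  fin_cases i <;> fin_cases j <;> simp [Matrix.mul_apply, Matrix.diagonal]

theorem dg_mul_rot_pow (m : ℤ) (k : ℕ) : dg m * rot ^ k = rot ^ k * dg ((-1) ^ k * m) := by
  induction k generalizing m with
  | zero => simp
  | succ k ih =>
    rw [pow_succ, ← mul_assoc, ih, mul_assoc, dg_mul_rot, ← mul_assoc]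
    congr 2
    ring

theorem norm_dg (m : ℤ) : ‖dg m‖ = 2 ^ |m| := by
  unfold dg
  rw [Matrix.l2_opNorm_diagonal]
  have h2 : ‖(2 : ℂ)‖ = 2 := by simp
  apply le_antisymm
  · rw [pi_norm_le_iff_of_nonneg (by positivity)]
    intro i
    fin_cases i
    · simp only [Fin.zero_eta, cons_val_zero, norm_zpow, h2]
      exact zpow_le_zpow_right₀ (by norm_num) (le_abs_self m)
    · simp only [Fin.mk_one, cons_val_one, cons_val_fin_one, norm_zpow, h2]
      exact zpow_le_zpow_right₀ (by norm_num) (neg_le_abs m)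
  · rcases abs_choice m with h | h
    · rw [h]
      have := norm_le_pi_norm ![(2 : ℂ) ^ m, (2 : ℂ) ^ (-m)] 0
      simpa [h2] using this
    · rw [h]
      have := norm_le_pi_norm ![(2 : ℂ) ^ m, (2 : ℂ) ^ (-m)] 1
      simpa [h2] using this

theorem dg_inv (m : ℤ) : (dg m)⁻¹ = dg (-m) := by
  apply Matrix.inv_eq_right_inv
  rw [dg_mul, add_neg_cancel, dg_zero]

theorem rot_pow_mem (k : ℕ) : rot ^ k ∈ unitary Mat := pow_mem rot_mem k

theorem norm_rot_pow_mul_dg (k : ℕ) (m : ℤ) : ‖rot ^ k * dg m‖ = 2 ^ |m| := by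
  rw [CStarRing.norm_mem_unitary_mul _ (rot_pow_mem k), norm_dg]

theorem norm_inv_rot_pow_mul_dg (k : ℕ) (m : ℤ) : ‖(rot ^ k * dg m)⁻¹‖ = 2 ^ |m| := by
  have h1 : (rot ^ k * dg m)⁻¹ = dg (-m) * star (rot ^ k) := by
    apply Matrix.inv_eq_right_inv
    have h2 : rot ^ k * star (rot ^ k) = 1 := (Unitary.mem_iff.mp (rot_pow_mem k)).2
    calc rot ^ k * dg m * (dg (-m) * star (rot ^ k))
        = rot ^ k * (dg m * dg (-m)) * star (rot ^ k) := by simp only [mul_assoc]
      _ = 1 := by rw [dg_mul, add_neg_cancel, dg_zero, mul_one, h2]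
  rw [h1, CStarRing.norm_mul_mem_unitary _ (Unitary.star_mem (rot_pow_mem k)), norm_dg, abs_neg]

theorem log_two_zpow (m : ℤ) : Real.log (2 ^ |m|) = |(m : ℝ)| * Real.log 2 := by
  rw [Real.log_zpow]
  push_cast
  rfl

end LyapunovJump
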