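import Mathlib

/-!
A walk with flips at coincidences of an atom with itself has zero drift.
-/

open MeasureTheory Filter Topology ProbabilityTheory

namespace LyapunovJump

variable {X : Type} [MeasurableSpace X]

/-- The sign of the walk driven by `y`. -/
def sg (y : ℕ → ℝ) : ℕ → ℝ
  | 0 => 1
  | n + 1 => sg y n * (1 - 2 * (y n * y (n + 1)))

/-- The position of the walk driven by `y`. -/
def ps (y : ℕ → ℝ) : ℕ → ℝ
  | 0 => 0
  | n + 1 => ps y n + sg y n * (1 - y n * y (n + 1))

theorem sg_congr {y y' : ℕ → ℝ} {n : ℕ} (h : ∀ i ≤ n, y i = y' i) : sg y n = sg y' n := by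
  induction n with
  | zero => rfl
  | succ n ih =>
    unfold sg
    rw [ih fun i hi => h i (by omega), h n (by omega), h (n + 1) le_rfl]

theorem ps_congr {y y' : ℕ → ℝ} {n : ℕ} (h : ∀ i ≤ n, y i = y' i) : ps y n = ps y' n := by
  induction n with
  | zero => rfl
  | succ n ih =>
    unfold ps
    rw [ih fun i hi => h i (by omega), h n (by omega), h (n + 1) le_rfl,
      sg_congr (y := y) (y' := y') (n := n) fun i hi => h i (by omega)]

theorem sg_sq {y : ℕ → ℝ} (hy : ∀ n, y n = 0 ∨ y n = 1) (n : ℕ) : sg y n ^ 2 = 1 := by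
  induction n with
  | zero => simp [sg]
  | succ n ih =>
    unfold sg
    rcases hy n with h | h <;> rcases hy (n + 1) with h' | h' <;> rw [h, h', mul_pow, ih] <;> norm_num

theorem abs_sg {y : ℕ → ℝ} (hy : ∀ n, y n = 0 ∨ y n = 1) (n : ℕ) : |sg y n| = 1 := by
  have h := sg_sq hy n
  rw [← sq_abs] at h
  have h0 := abs_nonneg (sg y n)
  nlinarith

theorem abs_ps_succ_sub {y : ℕ → ℝ} (hy : ∀ n, y n = 0 ∨ y n = 1) (n : ℕ) :
    |ps y (n + 1) - ps y n| ≤ 1 := by
  have h1 : ps y (n + 1) - ps y n = sg y n * (1 - y n * y (n + 1)) := by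
    conv_lhs => rw [ps]
    ring
  rw [h1, abs_mul, abs_sg hy, one_mul]
  rcases hy n with h | h <;> rcases hy (n + 1) with h' | h' <;> rw [h, h'] <;> norm_num

theorem abs_ps_sub_le {y : ℕ → ℝ} (hy : ∀ n, y n = 0 ∨ y n = 1) (m l : ℕ) :
    |ps y (m + l) - ps y m| ≤ l := by
  induction l with
  | zero => simp
  | succ l ih =>
    have h1 := abs_ps_succ_sub hy (m + l)
    calc |ps y (m + (l + 1)) - ps y m|
        = |(ps y (m + l + 1) - ps y (m + l)) + (ps y (m + l) - ps y m)| := by
          rw [sub_add_sub_cancel]; rfl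
      _ ≤ |ps y (m + l + 1) - ps y (m + l)| + |ps y (m + l) - ps y m| := abs_add_le _ _
      _ ≤ 1 + l := add_le_add h1 ih
      _ = ((l + 1 : ℕ) : ℝ) := by push_cast; ring

theorem abs_ps_le {y : ℕ → ℝ} (hy : ∀ n, y n = 0 ∨ y n = 1) (n : ℕ) : |ps y n| ≤ n := by
  have := abs_ps_sub_le hy 0 n
  simpa [ps] using this

/-- The corrected walk, a martingale. -/
noncomputable def mt (t : ℝ) (y : ℕ → ℝ) (n : ℕ) : ℝ :=
  ps y n + sg y n * ((1 / (2 * t ^ 2) - 1 / 2 + 1 / t) - y n / t)

theorem mt_succ {t : ℝ} (ht : t ≠ 0) {y : ℕ → ℝ} (hy : ∀ n, y n = 0 ∨ y n = 1) (n : ℕ) :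
    mt t y (n + 1) = mt t y n + sg y n * (1 + y n / t) * (1 - y (n + 1) / t) := by
  unfold mt
  have h1 : sg y (n + 1) = sg y n * (1 - 2 * (y n * y (n + 1))) := by rw [sg]
  have h2 : ps y (n + 1) = ps y n + sg y n * (1 - y n * y (n + 1)) := by rw [ps]
  rw [h1, h2]
  rcases hy n with h | h <;> rcases hy (n + 1) with h' | h' <;> rw [h, h'] <;> field_simp <;> ring

/-- Indicator of a point. -/
noncomputable def ptInd (z : X) (x : X) : ℝ := by
  classical exact if x = z then 1 else 0

theorem ptInd_cases (z x : X) : ptInd z x = 0 ∨ ptInd z x = 1 := by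
  unfold ptInd
  split_ifs
  · exact Or.inr rfl
  · exact Or.inl rfl

theorem measurable_ptInd [MeasurableSingletonClass X] (z : X) : Measurable (ptInd z) := by
  unfold ptInd
  exact Measurable.ite (measurableSet_singleton z) measurable_const measurable_const

/-- The driving sequence. -/
noncomputable def drv (z : X) (x : ℤ → X) : ℕ → ℝ := fun n => ptInd z (x n)

theorem drv_cases (z : X) (x : ℤ → X) (n : ℕ) : drv z x n = 0 ∨ drv z x n = 1 := ptInd_cases _ _

theorem measurable_drv [MeasurableSingletonClass X] (z : X) (n : ℕ) :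
    Measurable fun x : ℤ → X => drv z x n :=
  (measurable_ptInd z).comp (measurable_pi_apply _)

theorem measurable_sg [MeasurableSingletonClass X] (z : X) (n : ℕ) :
    Measurable fun x : ℤ → X => sg (drv z x) n := by
  induction n with
  | zero => simp only [sg]; exact measurable_const
  | succ n ih =>
    simp only [sg]
    exact ih.mul (measurable_const.sub (measurable_const.mul
      ((measurable_drv z n).mul (measurable_drv z (n + 1)))))

theorem measurable_ps [MeasurableSingletonClass X] (z : X) (n : ℕ) :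
    Measurable fun x : ℤ → X => ps (drv z x) n := by
  induction n with
  | zero => simp only [ps]; exact measurable_const
  | succ n ih =>
    simp only [ps]
    exact ih.add ((measurable_sg z n).mul (measurable_const.sub
      ((measurable_drv z n).mul (measurable_drv z (n + 1)))))

theorem measurable_mt [MeasurableSingletonClass X] (t : ℝ) (z : X) (n : ℕ) :
    Measurable fun x : ℤ → X => mt t (drv z x) n := by
  unfold mt
  exact (measurable_ps z n).add ((measurable_sg z n).mul
    (measurable_const.sub ((measurable_drv z n).div_const t)))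

/-- Independence of the next coordinate from the past. -/
theorem integral_mul_next (q : Measure X) [IsProbabilityMeasure q] (z : X) {F : (ℤ → X) → ℝ}
    (hF : Measurable F) (n : ℕ)
    (hdep : ∀ x y : ℤ → X, (∀ i ∈ Finset.Icc (0 : ℤ) n, x i = y i) → F x = F y)
    {u : X → ℝ} (hu : Measurable u) :
    ∫ x, F x * u (x ((n + 1 : ℕ) : ℤ)) ∂(Measure.infinitePi fun _ : ℤ => q)
      = (∫ x, F x ∂(Measure.infinitePi fun _ : ℤ => q)) * ∫ a, u a ∂q := by
  classical
  set μ := Measure.infinitePi fun _ : ℤ => q with hμ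
  have hind : iIndepFun (fun (i : ℤ) (x : ℤ → X) => x i) μ :=
    iIndepFun_infinitePi (P := fun _ : ℤ => q) (X := fun _ => id) (fun _ => measurable_id)
  have hdisj : Disjoint (Finset.Icc (0 : ℤ) n) {((n + 1 : ℕ) : ℤ)} := by
    rw [Finset.disjoint_singleton_right]
    simp
  have h1 := hind.indepFun_finset (Finset.Icc (0 : ℤ) n) {((n + 1 : ℕ) : ℤ)} hdisj
    (fun i => measurable_pi_apply i)
  set ext : ((i : (Finset.Icc (0 : ℤ) n : Finset ℤ)) → X) → (ℤ → X) :=
    fun w i => if h : i ∈ Finset.Icc (0 : ℤ) n then w ⟨i, h⟩ else z with hext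
  have hextm : Measurable ext := by
    refine measurable_pi_iff.mpr fun i => ?_
    by_cases h : i ∈ Finset.Icc (0 : ℤ) n
    · simp only [hext, h, dif_pos]
      exact measurable_pi_apply _
    · simp only [hext, h, dif_neg, not_false_eq_true]
      exact measurable_const
  have h2 : IndepFun (fun x : ℤ → X => F x) (fun x : ℤ → X => u (x ((n + 1 : ℕ) : ℤ))) μ := by
    have h3 := h1.comp (φ := fun w => F (ext w))
      (ψ := fun w : ((i : ({((n + 1 : ℕ) : ℤ)} : Finset ℤ)) → X) =>
        u (w ⟨((n + 1 : ℕ) : ℤ), Finset.mem_singleton_self _⟩))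
      (hF.comp hextm) (hu.comp (measurable_pi_apply _))
    have h4 : (fun w => F (ext w)) ∘ (fun (a : ℤ → X) (i : (Finset.Icc (0 : ℤ) n : Finset ℤ)) => a i)
        = fun x : ℤ → X => F x := by
      funext x
      simp only [Function.comp_apply]
      apply hdep
      intro i hi
      simp only [hext, hi, dif_pos]
    rw [h4] at h3
    exact h3
  have h5 := h2.integral_fun_mul_eq_mul_integral hF.aestronglyMeasurable
    (hu.comp (measurable_pi_apply _)).aestronglyMeasurable
  rw [h5]
  congr 1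
  have hmp := measurePreserving_eval_infinitePi (fun _ : ℤ => q) ((n + 1 : ℕ) : ℤ)
  rw [← hmp.map_eq, integral_map hmp.measurable.aemeasurable]
  exact hu.aestronglyMeasurable

theorem integrable_of_bdd {μ : Measure (ℤ → X)} [IsProbabilityMeasure μ] {F : (ℤ → X) → ℝ}
    (hF : Measurable F) {C : ℝ} (hC : ∀ x, |F x| ≤ C) : Integrable F μ :=
  Integrable.of_bound hF.aestronglyMeasurable C (Filter.Eventually.of_forall fun x => by
    rw [Real.norm_eq_abs]; exact hC x)

theorem drv_congr (z : X) {n : ℕ} {x y : ℤ → X} (h : ∀ i ∈ Finset.Icc (0 : ℤ) n, x i = y i) :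
    ∀ i ≤ n, drv z x i = drv z y i := by
  intro i hi
  unfold drv
  rw [h i (by simp; omega)]

theorem abs_mt_le {t : ℝ} (ht : 0 < t) {y : ℕ → ℝ} (hy : ∀ n, y n = 0 ∨ y n = 1) (n : ℕ) :
    |mt t y n| ≤ n + (|1 / (2 * t ^ 2) - 1 / 2 + 1 / t| + 1 / t) := by
  unfold mt
  have h1 : |sg y n * ((1 / (2 * t ^ 2) - 1 / 2 + 1 / t) - y n / t)|
      ≤ |1 / (2 * t ^ 2) - 1 / 2 + 1 / t| + 1 / t := by
    rw [abs_mul, abs_sg hy, one_mul]
    refine (abs_sub _ _).trans ?_
    gcongr
    rcases hy n with h | h <;> rw [h]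
    · simp [ht.le]
    · rw [abs_of_pos (by positivity)]
  exact (abs_add_le _ _).trans (add_le_add (abs_ps_le hy n) h1)

theorem second_moment {q : Measure X} [IsProbabilityMeasure q] [MeasurableSingletonClass X]
    {z : X} {t : ℝ} (ht : 0 < t) (hq : ∫ a, ptInd z a ∂q = t) :
    ∃ C : ℝ, 0 ≤ C ∧ ∀ n : ℕ,
      ∫ x, (mt t (drv z x) n) ^ 2 ∂(Measure.infinitePi fun _ : ℤ => q) ≤ C * (n + 1) := by
  set μ := Measure.infinitePi fun _ : ℤ => q with hμ
  set B : ℝ := |1 / (2 * t ^ 2) - 1 / 2 + 1 / t| + 1 / t with hB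
  have hB0 : 0 ≤ B := by positivity
  set K : ℝ := (1 + 1 / t) ^ 4 with hK
  have hK0 : 0 ≤ K := by positivity
  refine ⟨B ^ 2 + K, by positivity, fun n => ?_⟩
  have hbnd : ∀ n x, |mt t (drv z x) n| ≤ n + B := fun n x => abs_mt_le ht (drv_cases z x) n
  have hind_int : Integrable (fun a => ptInd z a) q := by
    refine Integrable.of_bound (measurable_ptInd z).aestronglyMeasurable 1
      (Filter.Eventually.of_forall fun a => ?_)
    rcases ptInd_cases z a with h | h <;> rw [h] <;> norm_num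
  induction n with
  | zero =>
    have h1 : ∀ x, (mt t (drv z x) 0) ^ 2 ≤ B ^ 2 := by
      intro x
      have := hbnd 0 x
      rw [← sq_abs]
      simp only [Nat.cast_zero, zero_add] at this
      exact pow_le_pow_left₀ (abs_nonneg _) this 2
    calc ∫ x, (mt t (drv z x) 0) ^ 2 ∂μ ≤ ∫ _x, B ^ 2 ∂μ := by
          refine integral_mono ?_ (integrable_const _) h1
          refine integrable_of_bdd ((measurable_mt t z 0).pow_const 2) (C := B ^ 2) fun x => ?_
          rw [abs_of_nonneg (sq_nonneg _)]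
          exact h1 x
      _ = B ^ 2 := by simp
      _ ≤ (B ^ 2 + K) * ((0 : ℕ) + 1) := by
          push_cast
          nlinarith
  | succ n ih =>
    set G : (ℤ → X) → ℝ := fun x => mt t (drv z x) n * (sg (drv z x) n * (1 + drv z x n / t)) with hG
    have hGm : Measurable G := (measurable_mt t z n).mul ((measurable_sg z n).mul
      (measurable_const.add ((measurable_drv z n).div_const t)))
    have hsg : ∀ x, |sg (drv z x) n| = 1 := fun x => abs_sg (drv_cases z x) n
    have hd1 : ∀ x m, |1 + drv z x m / t| ≤ 1 + 1 / t := by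
      intro x m
      rcases drv_cases z x m with h | h <;> rw [h]
      · simp [ht.le]
      · rw [abs_of_pos (by positivity)]
    have hd2 : ∀ x m, |1 - drv z x m / t| ≤ 1 + 1 / t := by
      intro x m
      rcases drv_cases z x m with h | h <;> rw [h]
      · simp [ht.le]
      · refine (abs_sub _ _).trans ?_
        rw [abs_one, abs_of_pos (by positivity : 0 < 1 / t)]
    have hcross : ∫ x, G x * (1 - ptInd z (x ((n + 1 : ℕ) : ℤ)) / t) ∂μ = 0 := by
      rw [integral_mul_next q z hGm n ?_ (u := fun a => 1 - ptInd z a / t)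
        (measurable_const.sub ((measurable_ptInd z).div_const t))]
      · have : ∫ a, (1 - ptInd z a / t) ∂q = 0 := by
          rw [integral_sub (integrable_const _) (hind_int.div_const t), integral_div, hq]
          simp [ht.ne']
        rw [this, mul_zero]
      · intro x y hxy
        have h1 := drv_congr z hxy
        simp only [hG]
        unfold mt
        rw [ps_congr h1, sg_congr h1, h1 n le_rfl]
    have hexp : ∀ x, (mt t (drv z x) (n + 1)) ^ 2
        = (mt t (drv z x) n) ^ 2 + 2 * (G x * (1 - ptInd z (x ((n + 1 : ℕ) : ℤ)) / t))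
          + ((1 + drv z x n / t) * (1 - drv z x (n + 1) / t)) ^ 2 := by
      intro x
      rw [mt_succ ht.ne' (drv_cases z x)]
      have h1 : drv z x (n + 1) = ptInd z (x ((n + 1 : ℕ) : ℤ)) := rfl
      have h2 := sg_sq (drv_cases z x) n
      rw [h1]
      simp only [hG]
      have h3 : (sg (drv z x) n * (1 + drv z x n / t) * (1 - ptInd z (x ((n + 1 : ℕ) : ℤ)) / t)) ^ 2
          = ((1 + drv z x n / t) * (1 - ptInd z (x ((n + 1 : ℕ) : ℤ)) / t)) ^ 2 := by
        rw [mul_assoc, mul_pow, h2, one_mul]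
      rw [← h3]
      ring
    have hi1 : Integrable (fun x => (mt t (drv z x) n) ^ 2) μ := by
      refine integrable_of_bdd ((measurable_mt t z n).pow_const 2) (C := (n + B) ^ 2) fun x => ?_
      rw [abs_of_nonneg (sq_nonneg _), ← sq_abs]
      exact pow_le_pow_left₀ (abs_nonneg _) (hbnd n x) 2
    have hi2 : Integrable (fun x => 2 * (G x * (1 - ptInd z (x ((n + 1 : ℕ) : ℤ)) / t))) μ := by
      refine Integrable.const_mul ?_ 2
      refine integrable_of_bdd (hGm.mul (measurable_const.sub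
        (((measurable_ptInd z).comp (measurable_pi_apply _)).div_const t)))
        (C := ((n + B) * (1 * (1 + 1 / t))) * (1 + 1 / t)) fun x => ?_
      have e1 : |G x| ≤ (n + B) * (1 * (1 + 1 / t)) := by
        simp only [hG]
        rw [abs_mul, abs_mul, hsg x]
        have := hbnd n x
        have := hd1 x n
        gcongr
      rw [abs_mul]
      have e2 := hd2 x (n + 1)
      have e3 : drv z x (n + 1) = ptInd z (x ((n + 1 : ℕ) : ℤ)) := rfl
      rw [e3] at e2
      gcongr
    have hlast : ∀ x, ((1 + drv z x n / t) * (1 - drv z x (n + 1) / t)) ^ 2 ≤ K := by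
      intro x
      rw [← sq_abs, abs_mul, hK]
      have e1 := hd1 x n
      have e2 := hd2 x (n + 1)
      calc (|1 + drv z x n / t| * |1 - drv z x (n + 1) / t|) ^ 2
          ≤ ((1 + 1 / t) * (1 + 1 / t)) ^ 2 := by gcongr
        _ = (1 + 1 / t) ^ 4 := by ring
    have hi3 : Integrable (fun x => ((1 + drv z x n / t) * (1 - drv z x (n + 1) / t)) ^ 2) μ := by
      refine integrable_of_bdd (((measurable_const.add ((measurable_drv z n).div_const t)).mul
        (measurable_const.sub ((measurable_drv z (n + 1)).div_const t))).pow_const 2)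
        (C := K) fun x => ?_
      rw [abs_of_nonneg (sq_nonneg _)]
      exact hlast x
    have hi12 : Integrable (fun x => (mt t (drv z x) n) ^ 2
        + 2 * (G x * (1 - ptInd z (x ((n + 1 : ℕ) : ℤ)) / t))) μ := hi1.add hi2
    have hsplit : ∫ x, (mt t (drv z x) (n + 1)) ^ 2 ∂μ
        = ∫ x, (mt t (drv z x) n) ^ 2 ∂μ
          + ∫ x, ((1 + drv z x n / t) * (1 - drv z x (n + 1) / t)) ^ 2 ∂μ := by
      calc ∫ x, (mt t (drv z x) (n + 1)) ^ 2 ∂μ
          = ∫ x, (((mt t (drv z x) n) ^ 2
              + 2 * (G x * (1 - ptInd z (x ((n + 1 : ℕ) : ℤ)) / t)))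
              + ((1 + drv z x n / t) * (1 - drv z x (n + 1) / t)) ^ 2) ∂μ :=
            integral_congr_ae (Filter.Eventually.of_forall hexp)
        _ = ∫ x, ((mt t (drv z x) n) ^ 2
              + 2 * (G x * (1 - ptInd z (x ((n + 1 : ℕ) : ℤ)) / t))) ∂μ
              + ∫ x, ((1 + drv z x n / t) * (1 - drv z x (n + 1) / t)) ^ 2 ∂μ :=
            integral_add hi12 hi3
        _ = (∫ x, (mt t (drv z x) n) ^ 2 ∂μ
              + ∫ x, 2 * (G x * (1 - ptInd z (x ((n + 1 : ℕ) : ℤ)) / t)) ∂μ)
              + ∫ x, ((1 + drv z x n / t) * (1 - drv z x (n + 1) / t)) ^ 2 ∂μ := by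
            rw [integral_add hi1 hi2]
        _ = _ := by rw [integral_const_mul, hcross, mul_zero, add_zero]
    rw [hsplit]
    have h5 : ∫ x, ((1 + drv z x n / t) * (1 - drv z x (n + 1) / t)) ^ 2 ∂μ ≤ K := by
      calc _ ≤ ∫ _x, K ∂μ := integral_mono hi3 (integrable_const _) hlast
        _ = K := by simp
    push_cast
    nlinarith

theorem ae_tendsto_zero {q : Measure X} [IsProbabilityMeasure q] [MeasurableSingletonClass X]
    {z : X} {t : ℝ} (ht : 0 < t) (hq : ∫ a, ptInd z a ∂q = t) :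
    ∀ᵐ x ∂(Measure.infinitePi fun _ : ℤ => q),
      Tendsto (fun n : ℕ => ps (drv z x) n / n) atTop (𝓝 0) := by
  obtain ⟨C, hC0, hC⟩ := second_moment (z := z) ht hq
  set μ := Measure.infinitePi fun _ : ℤ => q with hμ
  set B : ℝ := |1 / (2 * t ^ 2) - 1 / 2 + 1 / t| + 1 / t with hB
  -- summability along squares
  have hsum : ∀ᵐ x ∂μ, Summable fun k : ℕ => (mt t (drv z x) ((k + 1) ^ 2) / ((k : ℝ) + 1) ^ 2) ^ 2 := by
    have hmeas : ∀ k : ℕ, Measurable fun x : ℤ → X =>
        ENNReal.ofReal ((mt t (drv z x) ((k + 1) ^ 2) / ((k : ℝ) + 1) ^ 2) ^ 2) := fun k =>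
      (((measurable_mt t z _).div_const _).pow_const 2).ennreal_ofReal
    have hfin : ∫⁻ x, ∑' k : ℕ,
        ENNReal.ofReal ((mt t (drv z x) ((k + 1) ^ 2) / ((k : ℝ) + 1) ^ 2) ^ 2) ∂μ ≠ ⊤ := by
      rw [lintegral_tsum fun k => (hmeas k).aemeasurable]
      have hle : ∀ k : ℕ, ∫⁻ x,
          ENNReal.ofReal ((mt t (drv z x) ((k + 1) ^ 2) / ((k : ℝ) + 1) ^ 2) ^ 2) ∂μ
          ≤ ENNReal.ofReal (2 * C * (1 / ((k : ℝ) + 1) ^ 2)) := by
        intro k
        have hint : Integrable (fun x => (mt t (drv z x) ((k + 1) ^ 2) / ((k : ℝ) + 1) ^ 2) ^ 2) μ := by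
          refine integrable_of_bdd (((measurable_mt t z _).div_const _).pow_const 2)
            (C := ((((k + 1) ^ 2 : ℕ) + B) / ((k : ℝ) + 1) ^ 2) ^ 2) fun x => ?_
          rw [abs_of_nonneg (sq_nonneg _), ← sq_abs]
          refine pow_le_pow_left₀ (abs_nonneg _) ?_ 2
          rw [abs_div, abs_of_pos (by positivity : 0 < ((k : ℝ) + 1) ^ 2)]
          gcongr
          exact abs_mt_le ht (drv_cases z x) _
        rw [← ofReal_integral_eq_lintegral_ofReal hint
          (Filter.Eventually.of_forall fun x => sq_nonneg _)]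
        apply ENNReal.ofReal_le_ofReal
        have h1 : ∀ x : ℤ → X, (mt t (drv z x) ((k + 1) ^ 2) / ((k : ℝ) + 1) ^ 2) ^ 2
            = (mt t (drv z x) ((k + 1) ^ 2)) ^ 2 / ((k : ℝ) + 1) ^ 4 := by
          intro x
          rw [div_pow, ← pow_mul]
        simp_rw [h1]
        rw [integral_div, div_le_iff₀ (by positivity)]
        refine (hC _).trans ?_
        push_cast
        have h2 : 2 * C * (1 / ((k : ℝ) + 1) ^ 2) * ((k : ℝ) + 1) ^ 4 = 2 * C * ((k : ℝ) + 1) ^ 2 := by
          field_simp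
        rw [h2]
        have h3 : (1 : ℝ) ≤ ((k : ℝ) + 1) ^ 2 := by
          have : (0 : ℝ) ≤ k := by positivity
          nlinarith
        nlinarith
      refine ne_top_of_le_ne_top ?_ (ENNReal.tsum_le_tsum hle)
      have hs : Summable fun k : ℕ => 2 * C * (1 / ((k : ℝ) + 1) ^ 2) := by
        refine Summable.mul_left _ ?_
        have := (summable_nat_add_iff 1).mpr (Real.summable_one_div_nat_pow.mpr (by norm_num : 1 < 2))
        simpa using this
      rw [← ENNReal.ofReal_tsum_of_nonneg (fun k => by positivity) hs]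
      exact ENNReal.ofReal_ne_top
    have hae := ae_lt_top' (AEMeasurable.tsum fun k => (hmeas k).aemeasurable) hfin
    filter_upwards [hae] with x hx
    have h1 := ENNReal.summable_toReal hx.ne
    refine h1.congr fun k => ?_
    rw [ENNReal.toReal_ofReal (sq_nonneg _)]
  filter_upwards [hsum] with x hx
  have hy := drv_cases z x
  -- convergence along squares
  have h1 : Tendsto (fun k : ℕ => mt t (drv z x) ((k + 1) ^ 2) / ((k : ℝ) + 1) ^ 2) atTop (𝓝 0) := by
    have h2 := hx.tendsto_atTop_zero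
    have h3 := h2.sqrt
    simp only [Real.sqrt_zero] at h3
    refine (tendsto_zero_iff_abs_tendsto_zero _).mpr ?_
    refine h3.congr fun k => ?_
    rw [Real.sqrt_sq_eq_abs]
    rfl
  have h1' : Tendsto (fun k : ℕ => |mt t (drv z x) (k ^ 2)| / (k : ℝ) ^ 2) atTop (𝓝 0) := by
    rw [← tendsto_add_atTop_iff_nat 1]
    have h2 := h1.abs
    rw [abs_zero] at h2
    refine h2.congr fun k => ?_
    rw [abs_div, abs_of_pos (by positivity : 0 < ((k : ℝ) + 1) ^ 2)]
    push_cast
    rfl
  -- upper bound by a function of the integer square root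
  have hbound : ∀ n : ℕ, 0 < n → |ps (drv z x) n / n|
      ≤ |mt t (drv z x) ((Nat.sqrt n) ^ 2)| / ((Nat.sqrt n : ℕ) : ℝ) ^ 2
        + (B + 2 * (Nat.sqrt n : ℕ)) / ((Nat.sqrt n : ℕ) : ℝ) ^ 2 := by
    intro n hn
    set r := Nat.sqrt n with hr
    have hr0 : 0 < r := Nat.sqrt_pos.mpr hn
    have hr1 : r ^ 2 ≤ n := Nat.sqrt_le' n
    have hr2 : n ≤ r ^ 2 + 2 * r := by
      have := Nat.lt_succ_sqrt' n
      rw [← hr, Nat.succ_eq_add_one] at this
      nlinarith
    obtain ⟨l, hl⟩ := Nat.exists_eq_add_of_le hr1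
    have hl2 : l ≤ 2 * r := by omega
    have e1 : |ps (drv z x) n| ≤ |mt t (drv z x) (r ^ 2)| + (B + 2 * r) := by
      have e2 := abs_ps_sub_le hy (r ^ 2) l
      rw [← hl] at e2
      have e3 : |ps (drv z x) (r ^ 2)| ≤ |mt t (drv z x) (r ^ 2)| + B := by
        have e4 : ps (drv z x) (r ^ 2) = mt t (drv z x) (r ^ 2)
            - sg (drv z x) (r ^ 2) * ((1 / (2 * t ^ 2) - 1 / 2 + 1 / t) - drv z x (r ^ 2) / t) := by
          unfold mt; ring
        rw [e4]
        refine (abs_sub _ _).trans ?_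
        gcongr
        rw [abs_mul, abs_sg hy, one_mul]
        refine (abs_sub _ _).trans ?_
        rw [hB]
        gcongr
        rcases hy (r ^ 2) with h | h <;> rw [h]
        · simp [ht.le]
        · rw [abs_of_pos (by positivity)]
      have e5 : |ps (drv z x) n| ≤ |ps (drv z x) n - ps (drv z x) (r ^ 2)| + |ps (drv z x) (r ^ 2)| := by
        calc |ps (drv z x) n| = |(ps (drv z x) n - ps (drv z x) (r ^ 2)) + ps (drv z x) (r ^ 2)| := by
              rw [sub_add_cancel]
          _ ≤ _ := abs_add_le _ _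
      have e6 : (l : ℝ) ≤ 2 * r := by exact_mod_cast hl2
      linarith
    have hnr : ((r : ℝ)) ^ 2 ≤ n := by exact_mod_cast hr1
    have hrpos : (0 : ℝ) < (r : ℝ) ^ 2 := by positivity
    rw [abs_div, abs_of_nonneg (by positivity : (0 : ℝ) ≤ n), ← add_div]
    have hB0 : 0 ≤ B := by positivity
    calc |ps (drv z x) n| / n ≤ |ps (drv z x) n| / (r : ℝ) ^ 2 := by gcongr
      _ ≤ (|mt t (drv z x) (r ^ 2)| + (B + 2 * r)) / (r : ℝ) ^ 2 := by gcongr
  have hsqrt : Tendsto Nat.sqrt atTop atTop := by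
    refine tendsto_atTop_atTop.mpr fun b => ⟨b * b, fun a ha => ?_⟩
    exact Nat.le_sqrt.mpr ha
  have h4 : Tendsto (fun k : ℕ => (B + 2 * (k : ℝ)) / (k : ℝ) ^ 2) atTop (𝓝 0) := by
    have e1 : Tendsto (fun k : ℕ => B * (1 / (k : ℝ)) ^ 2 + 2 * (1 / (k : ℝ))) atTop
        (𝓝 (B * 0 ^ 2 + 2 * 0)) :=
      ((tendsto_one_div_atTop_nhds_zero_nat.pow 2).const_mul B).add
        (tendsto_one_div_atTop_nhds_zero_nat.const_mul 2)
    simp only [ne_eq, OfNat.ofNat_ne_zero, not_false_eq_true, zero_pow, mul_zero, add_zero] at e1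
    refine e1.congr' ?_
    filter_upwards [eventually_gt_atTop 0] with k hk
    have : (0 : ℝ) < k := by exact_mod_cast hk
    field_simp
  have h5 := (h1'.comp hsqrt).add (h4.comp hsqrt)
  rw [add_zero] at h5
  rw [tendsto_zero_iff_abs_tendsto_zero]
  refine squeeze_zero' (Filter.Eventually.of_forall fun n => abs_nonneg _) ?_ h5
  filter_upwards [eventually_gt_atTop 0] with n hn
  exact hbound n hn

end LyapunovJump
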